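import Pool.Agent.H45.ARMain

set_option autoImplicit false

open Pool.Agent.H45.AR

namespace Pool.Agent.Results.MP_3ace2b_pr.FreeTwo

/-- The free group of rank two is not algebraically recurrent. -/
theorem result : ¬ IsAR (FreeGroup (Fin 2)) := not_isAR_free

end Pool.Agent.Results.MP_3ace2b_pr.FreeTwo
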